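import Pool.Agent.helper62.QU.Spec

/-! Row `qu:TRF`: transfer of kernel inequalities to strongly converging representations. -/

set_option autoImplicit false

open scoped MatrixGroups ContDiff Topology UpperHalfPlane
open UpperHalfPlane MeasureTheory Filter Set

namespace Pool.Agent.QU

private theorem TRF_num {ε v I A B Φ : ℝ} {s : ℕ} (hε : 0 < ε) (hv : 0 < v) (hI : 0 ≤ I)
    (hΦ : Φ ≤ v * I) (hB : B ≤ (0 + ε / (2 * v)) * Φ)
    (hA : A ≤ B + ε / (2 * (s + 1) * v) * s * v * I) : A ≤ ε * I := by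
  have h1 : (0 + ε / (2 * v)) * Φ ≤ ε / 2 * I := by
    have h2 : ε / (2 * v) * Φ ≤ ε / (2 * v) * (v * I) :=
      mul_le_mul_of_nonneg_left hΦ (by positivity)
    have h3 : ε / (2 * v) * (v * I) = ε / 2 * I := by
      field_simp
    rw [zero_add]
    linarith
  have h4 : ε / (2 * (s + 1) * v) * s * v * I ≤ ε / 2 * I := by
    have hs : (0 : ℝ) < (s : ℝ) + 1 := by positivity
    have h5 : ε / (2 * (s + 1) * v) * s * v * I = ε / 2 * I * (s / (s + 1)) := by
      field_simp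
    rw [h5]
    have h6 : (s : ℝ) / (s + 1) ≤ 1 := by
      rw [div_le_one hs]
      linarith
    have h7 : 0 ≤ ε / 2 * I := by positivity
    calc ε / 2 * I * (s / (s + 1)) ≤ ε / 2 * I * 1 := mul_le_mul_of_nonneg_left h6 h7
      _ = ε / 2 * I := mul_one _
  linarith

theorem TRF (h1 : DOB_stmt) (h2 : SCM_stmt) (h3 : PAR_stmt) (h4 : TR2_stmt) (h5 : TR3_stmt) :
    TRF_stmt := by
  intro Γ F a hΓ hF ha hN V _ _ _ ρ hρ ε hε
  obtain ⟨-, -, hv0, hv1, -, -⟩ := h1 Γ F hΓ hF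
  have hv : 0 < (volume F).toReal := ENNReal.toReal_pos hv0.ne' hv1.ne
  obtain ⟨S, hSi, hS, hpar⟩ := h3 Γ F a hΓ hF ha
  obtain ⟨k, c, p, hcm, hpc, hcU, hcd, happ⟩ :=
    hpar (ε / (2 * ((S.card : ℝ) + 1) * (volume F).toReal)) (by positivity)
  have hpF : ∀ i, p i ∈ F := fun i => by
    rw [← hcU]
    exact mem_iUnion.2 ⟨i, hpc i⟩
  obtain ⟨hsym, hneg⟩ := h4 Γ a S k p ha hN hSi fun γ i j h => hS γ _ _ (hpF i) (hpF j) h
  have h6 := h2 Γ V ρ hρ k (mC a S p) 0 hsym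
    (fun e => by rw [zero_mul]; exact hneg e) (ε / (2 * (volume F).toReal)) (by positivity)
  filter_upwards [h6] with n hn φ hφ hφe
  obtain ⟨Φ, hΦ, hint⟩ := h5 Γ F a S _ k c p (V n) (ρ n) φ hΓ hF ha (by positivity) hS hcm hcU hcd
    happ hφ hφe
  refine TRF_num (s := S.card) hε hv ?_ hΦ (hn Φ) hint
  exact integral_nonneg fun z => by positivity

end Pool.Agent.QU
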